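import Pool.Agent.helper17.GFG.Spec

/-!
# Row `gg:KMU` (project GFG, MP_561ff4_al)

All short root elements, from three scaled short root elements.
-/

set_option autoImplicit false

open Finset

namespace Pool.Agent.EXT

open Pool.Agent.EXC

/-- the six explicit short roots -/
lemma KMU_SR : ∀ i : Fin 3, (ip C6 (de3 i) (de3 i) = 2 ∧ pv (de3 i) ≠ de3 i) ∧
    (ip C6 (-(de3 i)) (-(de3 i)) = 2 ∧ pv (-(de3 i)) ≠ -(de3 i)) := by
  decide +kernel

/-- every short root has one of the six gradings -/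
lemma KMU_gr : ∀ v ∈ RL, pv v ≠ v → ∃ i : Fin 3, gr6 v = gr6 (de3 i) ∨ gr6 v = gr6 (-(de3 i)) := by
  decide +kernel

/-- the relations between the six gradings -/
lemma KMU_rel :
    gr6 (-(de3 2)) = gr6 (de3 0) + gr6 (de3 1) ∧ gr6 (-(de3 1)) = gr6 (de3 0) + gr6 (de3 2) ∧
    gr6 (-(de3 0)) = gr6 (de3 1) + gr6 (de3 2) ∧ gr6 (de3 0) = gr6 (-(de3 1)) + gr6 (-(de3 2)) ∧
    gr6 (de3 1) = gr6 (-(de3 0)) + gr6 (-(de3 2)) ∧ gr6 (de3 2) = gr6 (-(de3 0)) + gr6 (-(de3 1)) := by
  decide +kernel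

/-- a set `R` of scalars closed under sums and negatives with `t R ⊆ R` is everything if it contains `1` and
`t` generates the field as a ring -/
lemma KMU_all {K : Type} [Field K] (R : K → Prop) (t : K) (hgen : ∀ A : Subring K, t ∈ A → A = ⊤)
    (hadd : ∀ r s, R r → R s → R (r + s)) (hneg : ∀ r, R r → R (-r)) (ht : ∀ r, R r → R (t * r))
    (h1 : R 1) : ∀ r, R r := by
  let M : Subring K :=
    { carrier := {m | ∀ r, R r → R (m * r)}
      mul_mem' := by
        intro a b ha hb r hr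
        rw [mul_assoc]
        exact ha _ (hb r hr)
      one_mem' := by
        intro r hr
        rw [one_mul]
        exact hr
      add_mem' := by
        intro a b ha hb r hr
        rw [add_mul]
        exact hadd _ _ (ha r hr) (hb r hr)
      zero_mem' := by
        intro r hr
        have h := hadd _ _ hr (hneg r hr)
        rw [add_neg_cancel] at h
        rw [zero_mul]
        exact h
      neg_mem' := by
        intro a ha r hr
        rw [neg_mul]
        exact hneg _ (ha r hr) }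
  have hM : M = ⊤ := hgen M (fun r hr => ht r hr)
  intro r
  have hr : r ∈ M := by
    rw [hM]
    exact Subring.mem_top r
  have h := hr 1 h1
  rw [mul_one] at h
  exact h

theorem KMU (hKRG : KRG_stmt) (hLST : LST_stmt) : KMU_stmt := by
  intro K _ τ hτ c hc hc0 H hH t ht hgen h0 h1 h2
  obtain ⟨q1, q2, q3⟩ := hKRG K τ hτ c hc hc0 H hH
  obtain ⟨r1, r2, r3, r4, r5, r6⟩ := KMU_rel
  have P : ∀ i : Fin 3, SR (de3 i) := fun i => (KMU_SR i).1
  have N : ∀ i : Fin 3, SR (-(de3 i)) := fun i => (KMU_SR i).2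
  have n2 : RS τ c H (-(de3 2)) 1 := by
    have h := q2 _ _ _ (P 0) (P 1) (N 2) r1 1 1 h0 h1
    rw [mul_one] at h
    exact h
  have R0 : ∀ r : K, RS τ c H (de3 0) r := by
    refine KMU_all (fun r => RS τ c H (de3 0) r) t hgen (fun r s hr hs => (q3 _ (P 0) r s hr hs).1)
      (fun r hr => (q3 _ (P 0) r r hr hr).2) ?_ h0
    intro r hr
    have a := q2 _ _ _ (P 0) (P 2) (N 1) r2 r t hr h2
    have b := q2 _ _ _ (N 1) (N 2) (P 0) r4 (r * t) 1 a n2
    rw [mul_one, mul_comm] at b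
    exact b
  have R1 : ∀ r : K, RS τ c H (de3 1) r := by
    refine KMU_all (fun r => RS τ c H (de3 1) r) t hgen (fun r s hr hs => (q3 _ (P 1) r s hr hs).1)
      (fun r hr => (q3 _ (P 1) r r hr hr).2) ?_ h1
    intro r hr
    have a := q2 _ _ _ (P 1) (P 2) (N 0) r3 r t hr h2
    have b := q2 _ _ _ (N 0) (N 2) (P 1) r5 (r * t) 1 a n2
    rw [mul_one, mul_comm] at b
    exact b
  have N2 : ∀ r : K, RS τ c H (-(de3 2)) r := by
    intro r
    have h := q2 _ _ _ (P 0) (P 1) (N 2) r1 r 1 (R0 r) h1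
    rw [mul_one] at h
    exact h
  have N1 : ∀ r : K, RS τ c H (-(de3 1)) r := by
    intro r
    have h := q2 _ _ _ (P 0) (P 2) (N 1) r2 (r / t) t (R0 _) h2
    rw [div_mul_cancel₀ r ht] at h
    exact h
  have N0 : ∀ r : K, RS τ c H (-(de3 0)) r := by
    intro r
    have h := q2 _ _ _ (P 1) (P 2) (N 0) r3 (r / t) t (R1 _) h2
    rw [div_mul_cancel₀ r ht] at h
    exact h
  have R2 : ∀ r : K, RS τ c H (de3 2) r := by
    intro r
    have h := q2 _ _ _ (N 0) (N 1) (P 2) r6 r 1 (N0 r) (N1 1)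
    rw [mul_one] at h
    exact h
  have RA : ∀ (i : Fin 3) (r : K), RS τ c H (de3 i) r := by
    intro i r
    fin_cases i
    · exact R0 r
    · exact R1 r
    · exact R2 r
  have NA : ∀ (i : Fin 3) (r : K), RS τ c H (-(de3 i)) r := by
    intro i r
    fin_cases i
    · exact N0 r
    · exact N1 r
    · exact N2 r
  intro γ hγ r
  obtain ⟨i, hi | hi⟩ := KMU_gr γ ((hLST γ).1 hγ.1) hγ.2
  · exact q1 _ _ (P i) hγ hi.symm r (RA i r)
  · exact q1 _ _ (N i) hγ hi.symm r (NA i r)

end Pool.Agent.EXT
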